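import Mathlib
import Pool.Agent.R890.ToricWqo

/-!
# Canonical threshold polytopes of toric tuples

For toric varieties and torus invariant divisors, of every dimension, the canonical threshold
polytopes with coefficients in a DCC set are well quasi ordered by reverse inclusion: each infinite
sequence of them has a subsequence that decreases for inclusion. In particular there is no infinite
strictly increasing chain.
-/

set_option autoImplicit false

namespace Pool.Agent.Results.MP_afce3b_ag.ToricPolytopes

open Pool.Agent.R890

/-- For every sequence of toric tuples with coefficients in a DCC set there is a subsequence along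
which the canonical threshold polytopes decrease for inclusion. -/
theorem result (d s : ℕ) (Γ : Set ℝ) (hΓ : IsDCC Γ) (T : ℕ → CanTuple d s Γ) :
    ∃ φ : ℕ → ℕ, StrictMono φ ∧
      ∀ k l, k ≤ l → (T (φ l)).polytope ⊆ (T (φ k)).polytope := by
  have : IsPreorder (CanTuple d s Γ) (fun A B => B.polytope ⊆ A.polytope) :=
    { refl := fun A => subset_rfl
      trans := fun A B C h1 h2 => h2.trans h1 }
  have h1 : (Set.univ : Set (CanTuple d s Γ)).PartiallyWellOrderedOn
      (fun A B => B.polytope ⊆ A.polytope) := by
    rw [Set.partiallyWellOrderedOn_iff_exists_lt]
    intro f _
    exact exists_polytope_subset hΓ f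
  obtain ⟨g, hg⟩ := h1.exists_monotone_subseq (f := T) (fun n => Set.mem_univ _)
  exact ⟨g, g.strictMono, fun k l hkl => hg k l hkl⟩

end Pool.Agent.Results.MP_afce3b_ag.ToricPolytopes
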